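import Mathlib
import Pool.Agent.N489.DR.Defs
import Pool.Agent.N489.DR.Main

set_option autoImplicit false

/-!
# The d-reflection preserves arbitrary products
-/

namespace Pool.Agent.Results.MP_c8df5e_gt.ProductReflection

open Pool.Agent.N489.DR

universe u

/-- Let `μ i : X i → Xd i` be d-reflections of the members of an arbitrary family of spaces. Then the
product of the maps `μ i` is a d-reflection of `∏ X i`, with values in `∏ Xd i`. Hence for every
d-reflection `ν : ∏ X i → P` of the product there is a homeomorphism of `P` onto `∏ Xd i` which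
carries `ν` to the product of the maps `μ i`. -/
theorem result (I : Type u) (X : I → Type u) [∀ i, TopologicalSpace (X i)]
    (Xd : I → Type u) [∀ i, TopologicalSpace (Xd i)] (μ : ∀ i, X i → Xd i)
    (hμ : ∀ i, IsDReflection (μ i)) :
    IsDReflection (fun (x : ∀ i, X i) (i : I) => μ i (x i)) ∧
      ∀ (P : Type u) [TopologicalSpace P] (ν : (∀ i, X i) → P), IsDReflection ν →
        ∃ h : P ≃ₜ (∀ i, Xd i), ∀ (x : ∀ i, X i) (i : I), h (ν x) i = μ i (x i) := by
  refine ⟨isDReflection_pi hμ, ?_⟩
  intro P _ ν hν
  obtain ⟨h, hh⟩ := (isDReflection_pi hμ).homeo hν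
  exact ⟨h, fun x i => congrFun (hh x) i⟩

end Pool.Agent.Results.MP_c8df5e_gt.ProductReflection
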